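import Mathlib
import Pool.Agent.K3h41.SYA.Main

/-!
# Symplectic forms and averages over amenable coverings of neighbourhoods of test sets

`X` is a closed manifold of dimension `2 (m + 1)` oriented by a volume form, `σ` is a closed
two-form with `σ ^ (m + 1)` nonnegative and `ζ` is a closed two-form; `Deg m σ` is the set where
`σ ^ (m + 1)` vanishes.

Let `pr : Z → X` be a normal covering with amenable group `Γ`. The following are equivalent.

* For some smooth one-form `α` on `X` the forms `σ + t (ζ + dα)` are positive symplectic forms for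
  all small positive `t` (with the natural growth of the volume).
* There is a one-form `β` on `Z` with bounded translates such that
  `(pr^* ζ + dβ) ∧ (pr^* σ) ^ m` is positive on average over `Deg m σ`.
* For every test set `C` there are a covering `pr' : Z' → X` of an open set containing `C`, with an
  amenable group `Γ'`, and a one-form `β` on `Z'` with bounded translates, such that the values of
  `(pr'^* ζ + dβ) ∧ (pr'^* σ) ^ m` on positive families are, on average over the orbits of `Γ'`,
  nonnegative over `C` and positive over one point of `C` (averages over finite sets,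
  uniformly in the translate).
* The same, with one invariant mean on `Γ'` instead of finite averages.

In the notation of Q1 the class of the symplectic forms is `a = [σ] + t [ζ]`, and `a = [σ]` for
`ζ = 0`.
-/

set_option autoImplicit false

open Set
open scoped Manifold ContDiff

namespace Pool.Agent.Results.MP_bf98aa_gt.AmenableTests

open Pool.Agent.Y501.SYP
open Pool.Agent.R772.SYK
open Pool.Agent.R772.SYF
open Pool.Agent.R772.SYD
open Pool.Agent.R772.SYM
open Pool.Agent.K3h41.SYA

theorem result (m d : ℕ) (hd : d = 2 * (m + 1)) (X : Type) [TopologicalSpace X]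
    [ChartedSpace (ES d) X] [IsManifold 𝓘(ℝ, ES d) ∞ X] [CompactSpace X] [T2Space X]
    (vol : TopForm (ES d) X m) (hvol : IsVolume vol)
    (σ ζ : Form (ES d) X 2) (hσ : IsClosed2 σ) (hζ : IsClosed2 ζ) (hnn : TopNonneg vol σ)
    (Z : Type) [TopologicalSpace Z] [ChartedSpace (ES d) Z] [IsManifold 𝓘(ℝ, ES d) ∞ Z]
    (Γ : Type) [Group Γ] [MulAction Γ Z] (hΓ : Amenable Γ) (pr : Z → X)
    (hpr : NormalCovering (ES d) Γ pr) :
    List.TFAE [
      ∃ (α : Form (ES d) X 1) (ρ : Form (ES d) X 2) (c : ℝ), ExactPair α ρ ∧
        SymplecticUpTo vol σ (addF ζ ρ) c,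
      ∃ (β : Form (ES d) Z 1) (η : Form (ES d) Z 2), ExactPair β η ∧
        BoundedTranslates1 Γ β ∧ ∀ z : Z, pr z ∈ Deg m σ → ∀ e : Fam (ES d) m z,
          0 < vol (pr z) (push pr z e) → AvgPos (orbit Γ pr m σ (addF (lift pr ζ) η) z e),
      ∀ C : Set X, TestSet vol σ C → AvgTest vol σ ζ C,
      ∀ C : Set X, TestSet vol σ C → MeanTest vol σ ζ C] :=
  tfae4 hd vol hvol σ ζ hσ hζ hnn Z Γ hΓ pr hpr

end Pool.Agent.Results.MP_bf98aa_gt.AmenableTests
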