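import Mathlib
import Pool.Agent.K3h41.SYH.Main

/-!
# The homotopy class of the symplectic forms near a degenerate form

`X` is a closed manifold of dimension `2 (m + 1)` oriented by a volume form. A smooth two-form is
called positive if its top power is positive (it is nondegenerate and compatible with the
orientation), and weak if its top power is nonnegative and its `m`-th power has no zeros (its
rank is at least `2 m` everywhere).

1. Every weak form `σ` has exactly one homotopy class of positive forms, that of `τ₀`: a positive
   form `τ` is homotopic to `τ₀` through positive forms if and only if it can be deformed into `σ`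
   (with positive forms on the way), if and only if it is joined to `σ` by a path of weak forms, if
   and only if `σ` is the `C⁰`-limit of a sequence of forms homotopic to `τ`.
2. If the forms `σ + t θ`, `0 < t ≤ c`, are positive, they are in this class.
3. Let `σ` and `ζ` be closed, `σ ^ (m + 1)` nonnegative and `τ` positive. For some one-form `α` the
   forms `σ + t (ζ + dα)`, `0 < t ≤ c`, are symplectic (with the natural growth of the volume) and
   homotopic to `τ` through positive forms, if and only if `τ` is joined to `σ` by a path of weak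
   forms, and every test set `C` has a covering of a neighbourhood, with amenable group, and a
   one-form on it, with averages nonnegative over `C` and positive at one point of `C`
   (the test of `AmenableTests`).

So it is decided when the conclusion of Q1 for `τ` and the classes `[σ] + t [ζ]` is satisfied by
forms `σ + t (ζ + dα)` as in 3.
-/

set_option autoImplicit false

open Set
open scoped Manifold ContDiff

namespace Pool.Agent.Results.MP_bf98aa_gt.CanonicalHomotopyClass

open Pool.Agent.Y501.SYP
open Pool.Agent.R772.SYK
open Pool.Agent.R772.SYF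
open Pool.Agent.R772.SYD
open Pool.Agent.R772.SYM
open Pool.Agent.K3h41.SYA
open Pool.Agent.K3h41.SYHP

theorem result (m d : ℕ) (hd : d = 2 * (m + 1)) (X : Type) [TopologicalSpace X]
    [ChartedSpace (ES d) X] [IsManifold 𝓘(ℝ, ES d) ∞ X] [CompactSpace X] [T2Space X]
    (vol : TopForm (ES d) X m) (hvol : IsVolume vol) :
    (∀ σ : Form (ES d) X 2, Weak vol σ →
      (∃ τ₀ : Form (ES d) X 2, Positive vol τ₀ ∧ ∀ τ : Form (ES d) X 2, Positive vol τ →
        List.TFAE [
          PathIn (Positive vol) τ τ₀,
          DeformsTo vol τ σ,
          PathIn (Weak vol) τ σ,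
          IsLimit vol τ σ]) ∧
      ∀ (θ : Form (ES d) X 2) (c : ℝ), IsSmooth θ →
        (∀ t : ℝ, 0 < t → t ≤ c → Positive vol (comb σ t θ)) →
        ∀ τ : Form (ES d) X 2, Positive vol τ → ∀ t : ℝ, 0 < t → t ≤ c →
          (PathIn (Positive vol) τ (comb σ t θ) ↔ PathIn (Weak vol) τ σ)) ∧
    ∀ σ ζ : Form (ES d) X 2, IsClosed2 σ → IsClosed2 ζ → TopNonneg vol σ →
      ∀ τ : Form (ES d) X 2, Positive vol τ →
      ((∃ (α : Form (ES d) X 1) (ρ : Form (ES d) X 2) (c : ℝ), ExactPair α ρ ∧
          SymplecticUpTo vol σ (addF ζ ρ) c ∧
          ∀ t : ℝ, 0 < t → t ≤ c → PathIn (Positive vol) τ (comb σ t (addF ζ ρ))) ↔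
        PathIn (Weak vol) τ σ ∧ ∀ C : Set X, TestSet vol σ C → AvgTest vol σ ζ C) := by
  refine ⟨fun σ hσ => ⟨?_, fun θ c hθ h τ hτ t ht0 ht1 =>
    resolutions hd hvol hσ hθ h ht0 ht1 hτ⟩,
    fun σ ζ hσ hζ hnn τ hτ => criterion hd hvol hσ hζ hnn hτ⟩
  obtain ⟨τ₀, h1, -, h2⟩ := canonical hd hvol hσ
  exact ⟨τ₀, h1, h2⟩

end Pool.Agent.Results.MP_bf98aa_gt.CanonicalHomotopyClass
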