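import Mathlib
import Pool.Agent.K3h41.SYS.Main

/-!
# Open sets of classes of symplectic forms near a degenerate closed form

`X` is a closed manifold of dimension `2 (m + 1)` oriented by a volume form, `σ` is a closed
two-form with `σ ^ (m + 1)` nonnegative, and `ζ_1, ..., ζ_k` are closed two-forms, for instance
representatives of a basis of `H²(X; ℝ)`. Let `K` be the set of the `s` in `ℝ^k` such that
`∑ s_i ζ_i` passes the test of `AmenableTests` for all test sets of `σ`.

1. `K` is open, convex and a cone. Either it contains zero and is all of `ℝ^k`, or it is contained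
   in an open half space.
2. For every compact subset `S` of `K` there is ONE `c > 0` such that for all `s` in `S` and
   `0 < t ≤ c` the class `[σ] + t ∑ s_i [ζ_i]` contains a symplectic form, and it is homotopic to a
   positive form `τ` through positive forms if and only if `τ` is joined to `σ` by a path of weak
   forms.
3. If zero is in `K` then the same is true for the classes `[σ] + ∑ s_i [ζ_i]`, for all `s` in a
   neighbourhood of zero.

So if `τ` is joined to `σ` by weak forms, the conclusion of Q1 holds for `τ` and all classes in open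
sets of `H²(X; ℝ)` with `[σ]` in the closure.
-/

set_option autoImplicit false

open Set
open scoped Manifold ContDiff

namespace Pool.Agent.Results.MP_bf98aa_gt.OpenSetsOfClasses

open Pool.Agent.Y501.SYP
open Pool.Agent.R772.SYK
open Pool.Agent.R772.SYF
open Pool.Agent.R772.SYD
open Pool.Agent.R772.SYM
open Pool.Agent.K3h41.SYA
open Pool.Agent.K3h41.SYHP
open Pool.Agent.K3h41.SYS

theorem result (m d : ℕ) (hd : d = 2 * (m + 1)) (X : Type) [TopologicalSpace X]
    [ChartedSpace (ES d) X] [IsManifold 𝓘(ℝ, ES d) ∞ X] [CompactSpace X] [T2Space X]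
    (vol : TopForm (ES d) X m) (hvol : IsVolume vol)
    (σ : Form (ES d) X 2) (hσ : IsClosed2 σ) (hnn : TopNonneg vol σ) (k : ℕ)
    (ζ : Fin k → Form (ES d) X 2) (hζ : ∀ i, IsClosed2 (ζ i)) (K : Set (Fin k → ℝ))
    (hK : ∀ s, s ∈ K ↔ ∀ C : Set X, TestSet vol σ C → AvgTest vol σ (lin ζ s) C) :
    IsOpen K ∧ Convex ℝ K ∧ (∀ s ∈ K, ∀ r : ℝ, 0 < r → r • s ∈ K) ∧
      (0 ∈ K → K = univ) ∧ (0 ∉ K → ∃ a : Fin k → ℝ, ∀ s ∈ K, 0 < ∑ i, a i * s i) ∧
      (∀ S : Set (Fin k → ℝ), IsCompact S → S ⊆ K → ∃ c : ℝ, 0 < c ∧ ∀ s ∈ S,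
        ∃ (α : Form (ES d) X 1) (ρ : Form (ES d) X 2), ExactPair α ρ ∧
          ∀ t : ℝ, 0 < t → t ≤ c → IsPosSymplectic vol (comb σ t (addF (lin ζ s) ρ)) ∧
            ∀ τ : Form (ES d) X 2, Positive vol τ →
              (PathIn (Positive vol) τ (comb σ t (addF (lin ζ s) ρ)) ↔
                PathIn (Weak vol) τ σ)) ∧
      (0 ∈ K → ∃ ε : ℝ, 0 < ε ∧ ∀ s : Fin k → ℝ, ‖s‖ ≤ ε →
        ∃ (α : Form (ES d) X 1) (ρ : Form (ES d) X 2), ExactPair α ρ ∧
          IsPosSymplectic vol (addF σ (addF (lin ζ s) ρ)) ∧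
            ∀ τ : Form (ES d) X 2, Positive vol τ →
              (PathIn (Positive vol) τ (addF σ (addF (lin ζ s) ρ)) ↔
                PathIn (Weak vol) τ σ)) := by
  obtain ⟨h1, h2, h3, h4, h5⟩ := classes hd hvol hσ hnn hζ hK
  refine ⟨h1, h2, h3, h4, halfSpace h1 h2, h5, fun h0 => nhd ?_⟩
  have hu := h4 h0
  exact h5 _ (isCompact_closedBall 0 1) (by rw [hu]; exact subset_univ _)

end Pool.Agent.Results.MP_bf98aa_gt.OpenSetsOfClasses
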